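import Pool.Agent.Helper93_CHG.Data

/-!
Negativity, part 2.
-/


set_option autoImplicit false
set_option maxRecDepth 100000

namespace Pool.Agent.CHG

open Pool.Agent.CH Pool.Agent.CH6

theorem neg2 : chkL (FB r1 r2) R5P2 = true := by decide +kernel

end Pool.Agent.CHG
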