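import Pool.Agent.Helper93_CHG.Ok
import Pool.Agent.Helper93_CHG.N0
import Pool.Agent.Helper93_CHG.N1
import Pool.Agent.Helper93_CHG.N2
import Pool.Agent.Helper93_CHG.N3
import Pool.Agent.Helper93_CHG.N4
import Pool.Agent.Helper93_CHG.N5
import Pool.Agent.Helper93_CHG.N6
import Pool.Agent.Helper93_CHG.N7
import Pool.Agent.Helper93_CH6.LineB

/-!
Every digraph without directed cycles of length at most three has a vertex of outdegree less
than `21 n / 62`.
-/

set_option autoImplicit false

namespace Pool.Agent.CHG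

open Pool.Agent.CH Pool.Agent.CH6

theorem lineOk (i : ℕ) : LineOk 21 62 (lnf i) (-533) 86 := by
  have h : lnf i = (6200, 533, 0, 5332, 1806) := rfl
  rw [h]
  refine ⟨by norm_num, by norm_num, by norm_num, by norm_num, by norm_num, by norm_num,
    by norm_num, ?_⟩
  have := Pool.Agent.CH5.LB.line
  exact_mod_cast this

theorem hchk (p : ℕ) (hp : p ∈ R5L) : chk (FB r1 r2) p = true := by
  unfold R5L at hp
  rcases List.mem_append.1 hp with hp | hp
  · exact chkL_spec neg0 p hp
  rcases List.mem_append.1 hp with hp | hp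
  · exact chkL_spec neg1 p hp
  rcases List.mem_append.1 hp with hp | hp
  · exact chkL_spec neg2 p hp
  rcases List.mem_append.1 hp with hp | hp
  · exact chkL_spec neg3 p hp
  rcases List.mem_append.1 hp with hp | hp
  · exact chkL_spec neg4 p hp
  rcases List.mem_append.1 hp with hp | hp
  · exact chkL_spec neg5 p hp
  rcases List.mem_append.1 hp with hp | hp
  · exact chkL_spec neg6 p hp
  · exact chkL_spec neg7 p hp

/-- THE MAIN THEOREM. -/
theorem main (V : Type) [Fintype V] [DecidableEq V] [Nonempty V] (E : V → V → Prop)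
    [DecidableRel E] (hE : ∀ u v, E u v → ¬ E v u) (h3 : ∀ u v w, E u v → E v w → ¬ E w u) :
    ∃ u : V, 62 * (Finset.univ.filter (fun v => E u v)).card < 21 * Fintype.card V :=
  all_of_certN 21 62 1 lnf (fun i _ => ⟨-533, 86, lineOk i⟩) Lf Qf Pf dataN hchk V E hE h3

end Pool.Agent.CHG
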