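import Pool.Agent.Helper93_CHG.D0
import Pool.Agent.Helper93_CHG.D1
import Pool.Agent.Helper93_CHG.D2
import Pool.Agent.Helper93_CHG.D3
import Pool.Agent.Helper93_CHG.D4
import Pool.Agent.Helper93_CHG.D5
import Pool.Agent.Helper93_CHG.D6
import Pool.Agent.Helper93_CHG.D7
import Pool.Agent.Helper93_CHG.DP

/-!
The certificate as functions.
-/


set_option autoImplicit false
set_option maxRecDepth 100000

namespace Pool.Agent.CHG

open Pool.Agent.CH Pool.Agent.CH6

/-- vectors -/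
def Lf : ℕ → List ℕ := nthL [L0, L1, L2, L3, L4, L5, L6, L7, L8, L9, L10, L11, L12, L13, L14, L15, L16, L17, L18, L19, L20, L21, L22, L23, L24, L25, L26, L27, L28, L29, L30, L31]

/-- rows -/
def Qf : ℕ → List (ℕ × ℕ) := nthL [Q0, Q1, Q2, Q3, Q4, Q5, Q6, Q7, Q8, Q9, Q10, Q11, Q12, Q13, Q14, Q15, Q16, Q17, Q18, Q19, Q20, Q21, Q22, Q23, Q24, Q25, Q26, Q27, Q28, Q29, Q30, Q31]

/-- squares with two roots -/
def Pf : ℕ → List ℕ := nthL [P0, P1]

/-- the line -/
def lnf : ℕ → ℕ × ℕ × ℕ × ℕ × ℕ := fun _ => (6200, 533, 0, 5332, 1806)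

/-- the rows of the first table -/
noncomputable def r1 : ℕ → ℕ := rowC Lf (fun i => mapN 21 62 lnf (Qf i))

/-- the rows of the second table -/
noncomputable def r2 : ℕ → ℕ := rowP Pf

end Pool.Agent.CHG
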