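import Pool.Agent.Helper93_CHG.Data

/-!
Range checks of the certificate.
-/


set_option autoImplicit false
set_option maxRecDepth 100000

namespace Pool.Agent.CHG

open Pool.Agent.CH Pool.Agent.CH6

theorem ok_v : ∀ i, i < 32 → okV 81 (Lf i) = true := by decide +kernel

theorem ok_nv : ∀ i, i < 32 → (Lf i).length ≤ 128 := by decide +kernel

theorem ok_r : ∀ i, i < 32 → okR (mapN 21 62 lnf (Qf i)) = true := by decide +kernel

theorem ok_q : ∀ i, i < 32 → okQN (rep i) 1 (Qf i) = true := by decide +kernel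

theorem ok_w : ∀ i, i < 32 → okL (Qf i) = true := by decide +kernel

theorem ok_nr : ∀ i, i < 32 → (Qf i).length ≤ 128 := by decide +kernel

theorem ok_p : ∀ τ, τ < 2 → okV 128 (Pf τ) = true := by decide +kernel

theorem ok_np : ∀ τ, τ < 2 → (Pf τ).length ≤ 128 := by decide +kernel

/-- all range checks -/
theorem dataN : DataN 21 62 1 lnf Lf Qf Pf :=
  ⟨by norm_num, by norm_num, ok_v, ok_nv, ok_r, ok_q, ok_w, ok_nr, ok_p, ok_np⟩

end Pool.Agent.CHG
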